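import Mathlib

/-!
A continuous function on the line with infinite variation on every nondegenerate interval.
-/

set_option autoImplicit false

open Set Filter Topology
open scoped ENNReal NNReal

namespace Pool.Agent.TH594.Sponge

/-- distance to the nearest integer -/
noncomputable def saw (x : ℝ) : ℝ := ‖(x : AddCircle (1 : ℝ))‖

lemma saw_nonneg (x : ℝ) : 0 ≤ saw x := norm_nonneg _

lemma saw_le (x : ℝ) : saw x ≤ 1 / 2 := by
  unfold saw
  have := AddCircle.norm_le_half_period (1 : ℝ) (x := (x : AddCircle (1 : ℝ))) one_ne_zero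
  simpa using this

lemma saw_lip (x y : ℝ) : |saw x - saw y| ≤ |x - y| := by
  unfold saw
  have h1 : |‖(x : AddCircle (1 : ℝ))‖ - ‖(y : AddCircle (1 : ℝ))‖| ≤
      ‖(x : AddCircle (1 : ℝ)) - (y : AddCircle (1 : ℝ))‖ := abs_norm_sub_norm_le _ _
  have h2 : (x : AddCircle (1 : ℝ)) - (y : AddCircle (1 : ℝ)) = ((x - y : ℝ) : AddCircle (1 : ℝ)) := by
    simp
  rw [h2] at h1
  refine h1.trans ?_
  exact QuotientAddGroup.norm_mk_le_norm (S := AddSubgroup.zmultiples (1 : ℝ)) (m := x - y)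

lemma continuous_saw : Continuous saw := by
  unfold saw
  exact (AddCircle.continuous_mk' (1 : ℝ)).norm

lemma saw_int (n : ℤ) : saw n = 0 := by
  unfold saw
  rw [UnitAddCircle.norm_eq]
  simp

lemma saw_half (n : ℤ) : saw (n + 1 / 2) = 1 / 2 := by
  unfold saw
  have h : (((n : ℝ) + 1 / 2 : ℝ) : AddCircle (1 : ℝ)) = ((1 / 2 : ℝ) : AddCircle (1 : ℝ)) := by
    have : ((n : ℝ) : AddCircle (1 : ℝ)) = 0 := by
      rw [AddCircle.coe_eq_zero_iff]
      exact ⟨n, by simp⟩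
    rw [AddCircle.coe_add, this, zero_add]
  rw [h]
  have := AddCircle.norm_half_period_eq (1 : ℝ)
  simpa using this

/-- consecutive half integers -/
lemma saw_step (j : ℤ) : |saw (((j + 1 : ℤ) : ℝ) / 2) - saw ((j : ℝ) / 2)| = 1 / 2 := by
  rcases Int.even_or_odd' j with ⟨c, rfl | rfl⟩
  · have h1 : (((2 * c + 1 : ℤ) : ℝ) / 2) = (c : ℝ) + 1 / 2 := by push_cast; ring
    have h2 : (((2 * c : ℤ) : ℝ) / 2) = (c : ℤ) := by push_cast; ring
    rw [h1, h2, saw_half, saw_int]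
    norm_num
  · have h1 : (((2 * c + 1 + 1 : ℤ) : ℝ) / 2) = ((c + 1 : ℤ) : ℝ) := by push_cast; ring
    have h2 : (((2 * c + 1 : ℤ) : ℝ) / 2) = (c : ℝ) + 1 / 2 := by push_cast; ring
    rw [h1, h2, saw_half, saw_int]
    norm_num

/-- the wild function -/
noncomputable def wild (x : ℝ) : ℝ := ∑' k : ℕ, (1 / 2 : ℝ) ^ k * saw (16 ^ k * x)

lemma term_bound (k : ℕ) (x : ℝ) : ‖(1 / 2 : ℝ) ^ k * saw (16 ^ k * x)‖ ≤ (1 / 2 : ℝ) ^ k := by
  rw [Real.norm_eq_abs, abs_mul, abs_of_nonneg (by positivity : (0 : ℝ) ≤ (1 / 2) ^ k),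
    abs_of_nonneg (saw_nonneg _)]
  have := saw_le (16 ^ k * x)
  have h : (0 : ℝ) ≤ (1 / 2) ^ k := by positivity
  nlinarith

lemma summable_half : Summable (fun k : ℕ => (1 / 2 : ℝ) ^ k) :=
  summable_geometric_of_lt_one (by norm_num) (by norm_num)

lemma summable_wild (x : ℝ) : Summable (fun k : ℕ => (1 / 2 : ℝ) ^ k * saw (16 ^ k * x)) :=
  Summable.of_norm_bounded summable_half fun k => term_bound k x

lemma continuous_wild : Continuous wild := by
  unfold wild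
  refine continuous_tsum (fun k => ?_) summable_half (fun k x => term_bound k x)
  exact continuous_const.mul (continuous_saw.comp (continuous_const.mul continuous_id))

lemma wild_step (m : ℕ) (j : ℤ) :
    (3 / 7) * (1 / 2 : ℝ) ^ m ≤
      |wild (((j + 1 : ℤ) : ℝ) / (2 * 16 ^ m)) - wild ((j : ℝ) / (2 * 16 ^ m))| := by
  set x : ℝ := ((j + 1 : ℤ) : ℝ) / (2 * 16 ^ m) with hx
  set y : ℝ := (j : ℝ) / (2 * 16 ^ m) with hy
  have hsum : wild x - wild y =
      ∑' k : ℕ, ((1 / 2 : ℝ) ^ k * saw (16 ^ k * x) - (1 / 2 : ℝ) ^ k * saw (16 ^ k * y)) := by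
    unfold wild
    rw [(summable_wild x).tsum_sub (summable_wild y)]
  have hzero : ∀ k ∉ Finset.range (m + 1),
      (1 / 2 : ℝ) ^ k * saw (16 ^ k * x) - (1 / 2 : ℝ) ^ k * saw (16 ^ k * y) = 0 := by
    intro k hk
    rw [Finset.mem_range, not_lt] at hk
    obtain ⟨l, rfl⟩ : ∃ l, k = m + 1 + l := ⟨k - (m + 1), by omega⟩
    have key : ∀ i : ℤ, (16 : ℝ) ^ (m + 1 + l) * ((i : ℝ) / (2 * 16 ^ m)) = ((8 * 16 ^ l * i : ℤ) : ℝ) := by
      intro i
      push_cast
      rw [pow_add, pow_add]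
      field_simp
      ring
    rw [hx, hy, key, key, saw_int, saw_int]
    simp
  rw [hsum, tsum_eq_sum hzero, Finset.sum_range_succ]
  have hlow : |∑ k ∈ Finset.range m, ((1 / 2 : ℝ) ^ k * saw (16 ^ k * x) - (1 / 2 : ℝ) ^ k * saw (16 ^ k * y))|
      ≤ (1 / 14) * (1 / 2 : ℝ) ^ m := by
    refine (Finset.abs_sum_le_sum_abs _ _).trans ?_
    have h1 : ∀ k ∈ Finset.range m, |(1 / 2 : ℝ) ^ k * saw (16 ^ k * x) - (1 / 2 : ℝ) ^ k * saw (16 ^ k * y)|
        ≤ 8 ^ k * (1 / (2 * 16 ^ m)) := by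
      intro k _
      rw [← mul_sub, abs_mul, abs_of_nonneg (by positivity : (0 : ℝ) ≤ (1 / 2) ^ k)]
      have h2 := saw_lip (16 ^ k * x) (16 ^ k * y)
      have h3 : |(16 : ℝ) ^ k * x - 16 ^ k * y| = 16 ^ k * (1 / (2 * 16 ^ m)) := by
        rw [← mul_sub, abs_mul, abs_of_nonneg (by positivity : (0 : ℝ) ≤ 16 ^ k)]
        congr 1
        rw [hx, hy, ← sub_div]
        push_cast
        rw [add_sub_cancel_left, abs_of_nonneg (by positivity)]
      rw [h3] at h2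
      calc (1 / 2 : ℝ) ^ k * |saw (16 ^ k * x) - saw (16 ^ k * y)|
          ≤ (1 / 2 : ℝ) ^ k * (16 ^ k * (1 / (2 * 16 ^ m))) := by gcongr
        _ = 8 ^ k * (1 / (2 * 16 ^ m)) := by
            rw [← mul_assoc, ← mul_pow]
            norm_num
    refine (Finset.sum_le_sum h1).trans ?_
    rw [← Finset.sum_mul, geom_sum_eq (by norm_num : (8 : ℝ) ≠ 1)]
    have h16 : (16 : ℝ) ^ m = 8 ^ m * 2 ^ m := by rw [← mul_pow]; norm_num
    have h2m : (1 / 2 : ℝ) ^ m = 1 / 2 ^ m := by rw [one_div_pow]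
    rw [h16, h2m]
    have h8 : (0 : ℝ) < 8 ^ m := by positivity
    have h2 : (0 : ℝ) < 2 ^ m := by positivity
    rw [div_mul_div_comm, mul_one_div, div_le_div_iff₀ (by positivity) (by positivity)]
    nlinarith [mul_pos h8 h2]
  have hmain : |(1 / 2 : ℝ) ^ m * saw (16 ^ m * x) - (1 / 2 : ℝ) ^ m * saw (16 ^ m * y)|
      = (1 / 2) * (1 / 2 : ℝ) ^ m := by
    have e1 : (16 : ℝ) ^ m * x = ((j + 1 : ℤ) : ℝ) / 2 := by
      rw [hx]; field_simp
    have e2 : (16 : ℝ) ^ m * y = (j : ℝ) / 2 := by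
      rw [hy]; field_simp
    rw [← mul_sub, abs_mul, abs_of_nonneg (by positivity : (0 : ℝ) ≤ (1 / 2) ^ m), e1, e2, saw_step]
    ring
  have habs : ∀ A B : ℝ, |B| - |A| ≤ |A + B| := by
    intro A B
    have := abs_sub_abs_le_abs_sub B (-A)
    rw [abs_neg, sub_neg_eq_add, add_comm] at this
    exact this
  refine le_trans ?_ (habs _ _)
  rw [hmain]
  have : (3 / 7 : ℝ) * (1 / 2) ^ m = (1 / 2) * (1 / 2 : ℝ) ^ m - (1 / 14) * (1 / 2 : ℝ) ^ m := by ring
  rw [this]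
  linarith

/-- the wild function has infinite variation on every nondegenerate interval -/
theorem wild_variation {a b : ℝ} (hab : a < b) : eVariationOn wild (Icc a b) = ⊤ := by
  refine ENNReal.eq_top_of_forall_nnreal_le fun C => ?_
  -- choose m large
  obtain ⟨m, hm⟩ : ∃ m : ℕ, (C : ℝ) * 7 + 2 ≤ (b - a) * 8 ^ m * 1 := by
    obtain ⟨m, hm⟩ := pow_unbounded_of_one_lt (((C : ℝ) * 7 + 2) / (b - a)) (by norm_num : (1 : ℝ) < 8)
    refine ⟨m, ?_⟩
    rw [div_lt_iff₀ (by linarith)] at hm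
    linarith
  have h2m : (1 : ℝ) ≤ 2 ^ m := one_le_pow₀ (by norm_num)
  have h16 : (16 : ℝ) ^ m = 8 ^ m * 2 ^ m := by rw [← mul_pow]; norm_num
  set h : ℝ := 1 / (2 * 16 ^ m) with hh
  have hpos : 0 < h := by positivity
  have hinv : h * (2 * 16 ^ m) = 1 := by rw [hh]; field_simp
  set J : ℤ := ⌈a / h⌉ with hJ
  set N : ℕ := ⌊(b - a) / h⌋₊ - 1 with hN
  have hJ1 : a ≤ J * h := by
    have := Int.le_ceil (a / h)
    rwa [div_le_iff₀ hpos] at this
  have hJ2 : (J : ℝ) * h < a + h := by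
    have := Int.ceil_lt_add_one (a / h)
    have h3 : (J : ℝ) * h < (a / h + 1) * h := by
      apply mul_lt_mul_of_pos_right _ hpos
      exact this
    rw [add_mul, div_mul_cancel₀ _ hpos.ne', one_mul] at h3
    exact h3
  have hbig : 2 ≤ (b - a) / h := by
    rw [le_div_iff₀ hpos]
    have h5 : (2 : ℝ) ≤ (b - a) * 8 ^ m := by
      have : (0 : ℝ) ≤ C := C.coe_nonneg
      nlinarith
    have h8 : (0 : ℝ) < 8 ^ m := by positivity
    have h6 : h * (8 ^ m) ≤ 1 / 2 := by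
      have : h * (2 * (8 ^ m * 2 ^ m)) = 1 := by rw [← h16]; exact hinv
      nlinarith [mul_pos hpos h8]
    have h7 : 2 * h ≤ (b - a) * 8 ^ m * h := by nlinarith
    have : (b - a) * 8 ^ m * h = (b - a) * (h * 8 ^ m) := by ring
    rw [this] at h7
    nlinarith
  have hfl : 1 ≤ ⌊(b - a) / h⌋₊ := by
    rw [Nat.one_le_floor_iff]
    linarith
  have hNr : (N : ℝ) = (⌊(b - a) / h⌋₊ : ℝ) - 1 := by
    rw [hN, Nat.cast_sub hfl]
    simp
  have hN1 : (N : ℝ) ≤ (b - a) / h - 1 := by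
    rw [hNr]
    have := Nat.floor_le (show 0 ≤ (b - a) / h by positivity)
    linarith
  have hN2 : (b - a) / h - 2 ≤ (N : ℝ) := by
    rw [hNr]
    have := Nat.lt_floor_add_one ((b - a) / h)
    linarith
  let u : ℕ → ℝ := fun i => ((J + i : ℤ) : ℝ) * h
  have hu : MonotoneOn u (Icc 0 N) := by
    intro i _ k _ hik
    simp only [u]
    have : ((J + i : ℤ) : ℝ) ≤ ((J + k : ℤ) : ℝ) := by
      push_cast
      have : (i : ℝ) ≤ k := by exact_mod_cast hik
      linarith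
    exact mul_le_mul_of_nonneg_right this hpos.le
  have us : ∀ i ∈ Icc 0 N, u i ∈ Icc a b := by
    intro i hi
    have hi2 : (i : ℝ) ≤ N := by exact_mod_cast hi.2
    simp only [u]
    push_cast
    constructor
    · have : (0 : ℝ) ≤ i * h := by positivity
      linarith [add_mul (J : ℝ) i h]
    · have h3 : (i : ℝ) * h ≤ ((b - a) / h - 1) * h := by
        apply mul_le_mul_of_nonneg_right _ hpos.le
        linarith
      rw [sub_mul, div_mul_cancel₀ _ hpos.ne', one_mul] at h3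
      linarith [add_mul (J : ℝ) i h]
  have key := eVariationOn.sum_le_of_monotoneOn_Icc (f := wild) (s := Icc a b) (m := 0) (n := N) hu us
  refine le_trans ?_ key
  have hstep : ∀ i ∈ Finset.Ico 0 N, ENNReal.ofReal ((3 / 7) * (1 / 2 : ℝ) ^ m) ≤
      edist (wild (u (i + 1))) (wild (u i)) := by
    intro i _
    rw [edist_dist, Real.dist_eq]
    apply ENNReal.ofReal_le_ofReal
    have h1 := wild_step m (J + i)
    have e1 : u (i + 1) = ((J + i + 1 : ℤ) : ℝ) / (2 * 16 ^ m) := by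
      simp only [u, hh]
      push_cast
      ring
    have e2 : u i = ((J + i : ℤ) : ℝ) / (2 * 16 ^ m) := by
      simp only [u, hh]
      push_cast
      ring
    rw [e1, e2]
    exact h1
  refine le_trans ?_ (Finset.sum_le_sum hstep)
  rw [Finset.sum_const, Nat.card_Ico, tsub_zero, nsmul_eq_mul, ← ENNReal.ofReal_natCast,
    ← ENNReal.ofReal_mul (by positivity)]
  rw [← ENNReal.ofReal_coe_nnreal]
  apply ENNReal.ofReal_le_ofReal
  have h4 : (b - a) / h = (b - a) * (2 * 16 ^ m) := by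
    rw [hh]; field_simp
  rw [h4, h16] at hN2
  have h2 : (1 / 2 : ℝ) ^ m * 2 ^ m = 1 := by rw [← mul_pow]; norm_num
  have hp : (0 : ℝ) < (1 / 2) ^ m := by positivity
  have hp1 : (1 / 2 : ℝ) ^ m ≤ 1 := pow_le_one₀ (by norm_num) (by norm_num)
  have h5 : ((b - a) * (2 * (8 ^ m * 2 ^ m)) - 2) * ((3 / 7) * (1 / 2) ^ m) ≤
      N * ((3 / 7) * (1 / 2) ^ m) := by
    apply mul_le_mul_of_nonneg_right hN2 (by positivity)
  refine le_trans ?_ h5
  have h6 : ((b - a) * (2 * (8 ^ m * 2 ^ m)) - 2) * ((3 / 7) * (1 / 2) ^ m)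
      = (b - a) * 8 ^ m * (6 / 7) * ((1 / 2) ^ m * 2 ^ m) - (6 / 7) * (1 / 2) ^ m := by ring
  rw [h6, h2]
  have hC : (0 : ℝ) ≤ C := C.coe_nonneg
  nlinarith

end Pool.Agent.TH594.Sponge
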