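import Mathlib
import Pool.Agent.TH594.Sponge.Wild

/-!
Composition of the wild function with a nonconstant path has infinite variation.
-/

set_option autoImplicit false

open Set Filter Topology
open scoped ENNReal NNReal

namespace Pool.Agent.TH594.Sponge

/-- infinite variation on every nondegenerate interval -/
def NowhereBV (w : ℝ → ℝ) : Prop := ∀ a b : ℝ, a < b → eVariationOn w (Icc a b) = ⊤

lemma nowhereBV_wild : NowhereBV wild := fun _ _ h => wild_variation h

lemma NowhereBV.neg {w : ℝ → ℝ} (h : NowhereBV w) : NowhereBV (fun x => w (-x)) := by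
  intro a b hab
  have h1 : eVariationOn (w ∘ fun x : ℝ => -x) (Icc a b) = eVariationOn w ((fun x : ℝ => -x) '' Icc a b) :=
    eVariationOn.comp_eq_of_antitoneOn w (fun x : ℝ => -x) (fun x _ y _ hxy => neg_le_neg hxy)
  have h2 : (fun x : ℝ => -x) '' Icc a b = Icc (-b) (-a) := by
    have : (fun x : ℝ => -x) = Neg.neg := rfl
    rw [this, Set.image_neg_Icc]
  rw [h2, h (-b) (-a) (by linarith)] at h1
  exact h1

/-- increasing case -/
lemma path_incr {w : ℝ → ℝ} (hw : NowhereBV w) {γ : ℝ → ℝ} {s t : ℝ} (hst : s ≤ t)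
    (hγ : ContinuousOn γ (Icc s t)) (hlt : γ s < γ t) :
    eVariationOn (fun x => w (γ x)) (Icc s t) = ⊤ := by
  -- first hitting times
  let T : ℝ → Set ℝ := fun x => {r ∈ Icc s t | x ≤ γ r}
  have hne : ∀ x ∈ Icc (γ s) (γ t), (T x).Nonempty := fun x hx => ⟨t, ⟨hst, le_rfl⟩, hx.2⟩
  have hbd : ∀ x, BddBelow (T x) := fun x => ⟨s, fun r hr => hr.1.1⟩
  have hcl : ∀ x, IsClosed (T x) := by
    intro x
    have : T x = Icc s t ∩ γ ⁻¹' Ici x := by
      ext r
      simp [T]
    rw [this]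
    exact hγ.preimage_isClosed_of_isClosed isClosed_Icc isClosed_Ici
  let τ : ℝ → ℝ := fun x => sInf (T x)
  have hmem : ∀ x ∈ Icc (γ s) (γ t), τ x ∈ T x := fun x hx => (hcl x).csInf_mem (hne x hx) (hbd x)
  have hval : ∀ x ∈ Icc (γ s) (γ t), γ (τ x) = x := by
    intro x hx
    obtain ⟨h1, h2⟩ := hmem x hx
    by_contra hne'
    have h3 : x < γ (τ x) := lt_of_le_of_ne h2 (Ne.symm hne')
    -- intermediate value on [s, τ x]
    have h4 : x ∈ γ '' Icc s (τ x) :=
      intermediate_value_Icc h1.1 (hγ.mono (Icc_subset_Icc_right h1.2)) ⟨hx.1, h3.le⟩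
    obtain ⟨r, hr, hrx⟩ := h4
    have h5 : r ∈ T x := ⟨⟨hr.1, hr.2.trans h1.2⟩, hrx.ge⟩
    have h6 : τ x ≤ r := csInf_le (hbd x) h5
    have h7 : r = τ x := le_antisymm hr.2 h6
    rw [h7] at hrx
    exact hne' hrx
  have hmono : MonotoneOn τ (Icc (γ s) (γ t)) := by
    intro x hx y hy hxy
    apply csInf_le_csInf (hbd x) (hne y hy)
    intro r hr
    exact ⟨hr.1, hxy.trans hr.2⟩
  have h1 : eVariationOn ((fun x => w (γ x)) ∘ τ) (Icc (γ s) (γ t)) ≤
      eVariationOn (fun x => w (γ x)) (Icc s t) :=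
    eVariationOn.comp_le_of_monotoneOn _ τ hmono (fun x hx => (hmem x hx).1)
  have h2 : eVariationOn ((fun x => w (γ x)) ∘ τ) (Icc (γ s) (γ t)) = eVariationOn w (Icc (γ s) (γ t)) := by
    apply eVariationOn.congr
    intro x hx
    simp only [Function.comp]
    rw [hval x hx]
  rw [h2, hw _ _ hlt] at h1
  exact top_le_iff.1 h1

/-- a path whose composition with a nowhere-BV function has bounded variation is constant -/
theorem path_const {w : ℝ → ℝ} (hw : NowhereBV w) {γ : ℝ → ℝ} (hγ : ContinuousOn γ (Icc 0 1))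
    (hfin : eVariationOn (fun x => w (γ x)) (Icc 0 1) ≠ ⊤) :
    ∀ s ∈ Icc (0 : ℝ) 1, ∀ t ∈ Icc (0 : ℝ) 1, γ s = γ t := by
  have main : ∀ s ∈ Icc (0 : ℝ) 1, ∀ t ∈ Icc (0 : ℝ) 1, s ≤ t → γ s = γ t := by
    intro s hs t ht hst
    have hsub : Icc s t ⊆ Icc (0 : ℝ) 1 := Icc_subset_Icc hs.1 ht.2
    rcases lt_trichotomy (γ s) (γ t) with h | h | h
    · exfalso
      have h1 := path_incr hw hst (hγ.mono hsub) h
      have h2 := eVariationOn.mono (fun x => w (γ x)) hsub
      rw [h1] at h2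
      exact hfin (top_le_iff.1 h2)
    · exact h
    · exfalso
      have h1 := path_incr (γ := fun x => - γ x) hw.neg hst (hγ.mono hsub).neg (neg_lt_neg h)
      simp only [neg_neg] at h1
      have h2 := eVariationOn.mono (fun x => w (γ x)) hsub
      rw [h1] at h2
      exact hfin (top_le_iff.1 h2)
  intro s hs t ht
  rcases le_total s t with h | h
  · exact main s hs t ht h
  · exact (main t ht s hs h).symm

/-- difference of functions of bounded variation -/
lemma variation_sub {f g : ℝ → ℝ} {s : Set ℝ} (hf : eVariationOn f s ≠ ⊤) (hg : eVariationOn g s ≠ ⊤) :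
    eVariationOn (fun x => f x - g x) s ≠ ⊤ := by
  have h : eVariationOn (fun x => f x - g x) s ≤ eVariationOn f s + eVariationOn g s := by
    refine iSup_le fun p => ?_
    have h1 := eVariationOn.sum_le (f := f) (s := s) (n := p.1) p.2.2.1 p.2.2.2
    have h2 := eVariationOn.sum_le (f := g) (s := s) (n := p.1) p.2.2.1 p.2.2.2
    refine le_trans ?_ (add_le_add h1 h2)
    rw [← Finset.sum_add_distrib]
    apply Finset.sum_le_sum
    intro i _
    rw [edist_dist, edist_dist, edist_dist, ← ENNReal.ofReal_add dist_nonneg dist_nonneg]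
    apply ENNReal.ofReal_le_ofReal
    simp only [Real.dist_eq]
    have : f (p.2.1 (i + 1)) - g (p.2.1 (i + 1)) - (f (p.2.1 i) - g (p.2.1 i)) =
      (f (p.2.1 (i + 1)) - f (p.2.1 i)) - (g (p.2.1 (i + 1)) - g (p.2.1 i)) := by ring
    rw [this]
    exact abs_sub _ _
  exact ne_top_of_le_ne_top (ENNReal.add_ne_top.2 ⟨hf, hg⟩) h

end Pool.Agent.TH594.Sponge
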