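import Mathlib
import Pool.Agent.TH594.Sponge.Path

/-!
Dimension at least two: a homeomorphism of the space onto a bounded set for which every nonconstant
rectifiable curve has an image of infinite length.
-/

set_option autoImplicit false

open Set Filter Topology
open scoped ENNReal NNReal

namespace Pool.Agent.TH594.Sponge

variable {m : ℕ}

/-- cyclic wild shear -/
noncomputable def shear (w : ℝ → ℝ) (x : Fin (m + 2) → ℝ) : Fin (m + 2) → ℝ :=
  Fin.cons (x 0 + w (x (Fin.last m).succ + w (x (Fin.last m).castSucc)))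
    (fun j : Fin (m + 1) => x j.succ + w (x j.castSucc))

lemma shear_zero (w : ℝ → ℝ) (x : Fin (m + 2) → ℝ) :
    shear w x 0 = x 0 + w (shear w x (Fin.last m).succ) := by
  simp [shear]

lemma shear_succ (w : ℝ → ℝ) (x : Fin (m + 2) → ℝ) (j : Fin (m + 1)) :
    shear w x j.succ = x j.succ + w (x j.castSucc) := by
  simp [shear]

/-- coordinates of the inverse -/
noncomputable def inv (w : ℝ → ℝ) : ℕ → (Fin (m + 2) → ℝ) → ℝ
  | 0, z => z 0 - w (z (Fin.last m).succ)
  | k + 1, z => (if h : k + 1 < m + 2 then z ⟨k + 1, h⟩ else 0) - w (inv w k z)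

lemma continuous_inv {w : ℝ → ℝ} (hw : Continuous w) (k : ℕ) :
    Continuous (inv (m := m) w k) := by
  induction k with
  | zero =>
    show Continuous fun z : Fin (m + 2) → ℝ => z 0 - w (z (Fin.last m).succ)
    fun_prop
  | succ k ih =>
    show Continuous fun z : Fin (m + 2) → ℝ =>
      (if h : k + 1 < m + 2 then z ⟨k + 1, h⟩ else 0) - w (inv w k z)
    by_cases h : k + 1 < m + 2
    · simp only [h, dite_true]
      exact (continuous_apply _).sub (hw.comp ih)
    · simp only [h, dite_false]
      exact continuous_const.sub (hw.comp ih)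

lemma inv_shear (w : ℝ → ℝ) (x : Fin (m + 2) → ℝ) (k : ℕ) (hk : k < m + 2) :
    inv w k (shear w x) = x ⟨k, hk⟩ := by
  induction k with
  | zero =>
    show shear w x 0 - w (shear w x (Fin.last m).succ) = _
    rw [shear_zero, add_sub_cancel_right]
    rfl
  | succ k ih =>
    show (if h : k + 1 < m + 2 then shear w x ⟨k + 1, h⟩ else 0) - w (inv w k (shear w x)) = _
    rw [dif_pos hk, ih (by omega)]
    have h1 := shear_succ w x ⟨k, by omega⟩
    have e1 : (⟨k, by omega⟩ : Fin (m + 1)).succ = ⟨k + 1, hk⟩ := rfl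
    have e2 : (⟨k, by omega⟩ : Fin (m + 1)).castSucc = ⟨k, by omega⟩ := rfl
    rw [e1, e2] at h1
    rw [h1, add_sub_cancel_right]

lemma continuous_shear {w : ℝ → ℝ} (hw : Continuous w) : Continuous (shear (m := m) w) := by
  refine continuous_pi fun i => ?_
  refine Fin.cases ?_ (fun j => ?_) i
  · have : (fun x : Fin (m + 2) → ℝ => shear w x 0) =
      fun x => x 0 + w (x (Fin.last m).succ + w (x (Fin.last m).castSucc)) := by
      ext x; simp [shear]
    rw [this]
    fun_prop
  · have : (fun x : Fin (m + 2) → ℝ => shear w x j.succ) =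
      fun x => x j.succ + w (x j.castSucc) := by
      ext x; simp [shear]
    rw [this]
    fun_prop

lemma isEmbedding_shear {w : ℝ → ℝ} (hw : Continuous w) : IsEmbedding (shear (m := m) w) := by
  have hleft : Function.LeftInverse (fun z : Fin (m + 2) → ℝ => fun i : Fin (m + 2) => inv w i.val z)
      (shear w) := by
    intro x
    ext i
    exact inv_shear w x i.val i.isLt
  exact hleft.isEmbedding (continuous_pi fun i => continuous_inv hw _) (continuous_shear hw)

/-- if a path and its image both have coordinates of bounded variation then the path is constant -/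
theorem shear_const {w : ℝ → ℝ} (hwc : Continuous w) (hw : NowhereBV w)
    {a : ℝ → (Fin (m + 2) → ℝ)} (ha : ∀ i, ContinuousOn (fun t => a t i) (Icc 0 1))
    (hfin : ∀ i, eVariationOn (fun t => a t i) (Icc 0 1) ≠ ⊤)
    (hfin' : ∀ i, eVariationOn (fun t => shear w (a t) i) (Icc 0 1) ≠ ⊤) :
    ∀ s ∈ Icc (0 : ℝ) 1, ∀ t ∈ Icc (0 : ℝ) 1, a s = a t := by
  have h1 : ∀ j : Fin (m + 1), ∀ s ∈ Icc (0 : ℝ) 1, ∀ t ∈ Icc (0 : ℝ) 1,
      a s j.castSucc = a t j.castSucc := by
    intro j
    refine path_const hw (ha j.castSucc) ?_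
    have h2 := variation_sub (hfin' j.succ) (hfin j.succ)
    have e : (fun x => shear w (a x) j.succ - a x j.succ) = fun x => w (a x j.castSucc) := by
      ext x
      rw [shear_succ, add_sub_cancel_left]
    rw [e] at h2
    exact h2
  have h3 : ∀ s ∈ Icc (0 : ℝ) 1, ∀ t ∈ Icc (0 : ℝ) 1,
      shear w (a s) (Fin.last m).succ = shear w (a t) (Fin.last m).succ := by
    refine path_const hw ?_ ?_
    · have e : (fun t => shear w (a t) (Fin.last m).succ) =
          fun t => a t (Fin.last m).succ + w (a t (Fin.last m).castSucc) := by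
        ext x
        rw [shear_succ]
      rw [e]
      exact (ha _).add (hwc.comp_continuousOn (ha _))
    · have h2 := variation_sub (hfin' 0) (hfin 0)
      have e : (fun x => shear w (a x) 0 - a x 0) = fun x => w (shear w (a x) (Fin.last m).succ) := by
        ext x
        rw [shear_zero, add_sub_cancel_left]
      rw [e] at h2
      exact h2
  intro s hs t ht
  ext i
  refine Fin.lastCases ?_ (fun j => ?_) i
  · have h4 := h3 s hs t ht
    rw [shear_succ, shear_succ, h1 (Fin.last m) s hs t ht] at h4
    have : (Fin.last m).succ = Fin.last (m + 1) := Fin.succ_last m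
    rw [this] at h4
    linarith
  · exact h1 j s hs t ht

lemma arctan_lip : LipschitzWith 1 Real.arctan := by
  apply lipschitzWith_of_nnnorm_deriv_le Real.differentiable_arctan
  intro x
  rw [Real.deriv_arctan]
  rw [← NNReal.coe_le_coe, coe_nnnorm, Real.norm_eq_abs, abs_of_nonneg (by positivity)]
  rw [NNReal.coe_one, div_le_one (by positivity)]
  nlinarith [sq_nonneg x]

lemma isEmbedding_arctan : IsEmbedding Real.arctan :=
  Real.arctan_strictMono.isEmbedding_of_ordConnected (by
    rw [Real.range_arctan]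
    exact ordConnected_Ioo)

lemma coord_lip {n : ℕ} (i : Fin n) : LipschitzWith 1 (fun x : EuclideanSpace ℝ (Fin n) => x i) := by
  refine LipschitzWith.of_dist_le_mul fun x y => ?_
  rw [NNReal.coe_one, one_mul, dist_eq_norm, dist_eq_norm]
  exact PiLp.norm_apply_le (x - y) i

/-- For `n = m + 2` there is an embedding of the space into the closed unit ball which maps every
nonconstant rectifiable path to a path of infinite length. -/
theorem exists_wild_embedding (m : ℕ) :
    ∃ F : EuclideanSpace ℝ (Fin (m + 2)) → EuclideanSpace ℝ (Fin (m + 2)),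
      IsEmbedding F ∧ (∀ x, ‖F x‖ ≤ 1) ∧
      ∀ γ : ℝ → EuclideanSpace ℝ (Fin (m + 2)), ContinuousOn γ (Icc 0 1) →
        eVariationOn γ (Icc 0 1) ≠ ⊤ → eVariationOn (fun t => F (γ t)) (Icc 0 1) ≠ ⊤ →
        ∀ s ∈ Icc (0 : ℝ) 1, ∀ t ∈ Icc (0 : ℝ) 1, γ s = γ t := by
  -- the map before scaling
  let A : (Fin (m + 2) → ℝ) → (Fin (m + 2) → ℝ) := Pi.map fun _ => Real.arctan
  have hA : IsEmbedding A := IsEmbedding.piMap fun _ => isEmbedding_arctan
  let H := PiLp.homeomorph 2 (fun _ : Fin (m + 2) => ℝ)
  let G : EuclideanSpace ℝ (Fin (m + 2)) → EuclideanSpace ℝ (Fin (m + 2)) :=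
    fun x => H.symm (shear wild (A (H x)))
  have hG : IsEmbedding G :=
    H.symm.isEmbedding.comp ((isEmbedding_shear continuous_wild).comp (hA.comp H.isEmbedding))
  have hGi : ∀ x i, G x i = shear wild (fun j => Real.arctan (x j)) i := fun x i => rfl
  -- bounded
  obtain ⟨M, hM⟩ : ∃ M : ℝ, ∀ x, ‖G x‖ ≤ M := by
    have hcomp : IsCompact (Set.univ.pi fun _ : Fin (m + 2) => Icc (-(Real.pi / 2)) (Real.pi / 2)) :=
      isCompact_univ_pi fun _ => isCompact_Icc
    have hcont : Continuous fun y : Fin (m + 2) → ℝ => ‖H.symm (shear wild y)‖ :=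
      (H.symm.continuous.comp (continuous_shear continuous_wild)).norm
    obtain ⟨M, hM⟩ := (hcomp.image hcont).bddAbove
    refine ⟨M, fun x => hM ⟨A (H x), ?_, rfl⟩⟩
    intro i _
    exact ⟨(Real.neg_pi_div_two_lt_arctan _).le, (Real.arctan_lt_pi_div_two _).le⟩
  have hM0 : 0 ≤ M := (norm_nonneg _).trans (hM 0)
  have hc : (M + 1)⁻¹ ≠ 0 := by positivity
  refine ⟨fun x => (M + 1)⁻¹ • G x, (Homeomorph.smulOfNeZero _ hc).isEmbedding.comp hG, ?_, ?_⟩
  · intro x
    rw [norm_smul, norm_inv, Real.norm_of_nonneg (by positivity : 0 ≤ M + 1)]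
    rw [inv_mul_le_iff₀ (by positivity)]
    linarith [hM x]
  · intro γ hγ h1 h2
    -- remove the scaling
    have h3 : eVariationOn (fun t => G (γ t)) (Icc 0 1) ≠ ⊤ := by
      have hl : LipschitzWith ‖(M + 1)‖₊ (fun x : EuclideanSpace ℝ (Fin (m + 2)) => (M + 1) • x) :=
        lipschitzWith_smul (M + 1)
      have h4 := hl.comp_boundedVariationOn (f := fun x => (M + 1) • x)
        (g := fun t => (M + 1)⁻¹ • G (γ t)) (s := Icc 0 1) h2
      have e : ((fun x => (M + 1) • x) ∘ fun t => (M + 1)⁻¹ • G (γ t)) = fun t => G (γ t) := by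
        ext t i
        simp only [Function.comp]
        rw [smul_smul, mul_inv_cancel₀ (by positivity), one_smul]
      rw [e] at h4
      exact h4
    have hconst := shear_const (m := m) continuous_wild nowhereBV_wild
      (a := fun t i => Real.arctan (γ t i))
      (fun i => Real.continuous_arctan.comp_continuousOn
        ((coord_lip i).continuous.comp_continuousOn hγ))
      (fun i => ((arctan_lip.comp (coord_lip i)).comp_boundedVariationOn
        (g := γ) (s := Icc 0 1) h1))
      (fun i => ((coord_lip i).comp_boundedVariationOn (g := fun t => G (γ t)) (s := Icc 0 1) h3))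
    intro s hs t ht
    have h5 := hconst s hs t ht
    ext i
    exact Real.arctan_injective (congrFun h5 i)

end Pool.Agent.TH594.Sponge
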