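import Mathlib

/-!
Dimension one: an open subset of the line of measure at most two embeds into `[-1,1]` by a map which
is a translation on every component.
-/

set_option autoImplicit false

open Set Filter Topology MeasureTheory
open scoped ENNReal NNReal

namespace Pool.Agent.TH594.Sponge

/-- the packing map of an open subset `V` of the line -/
noncomputable def pack (V : Set ℝ) (x : ℝ) : ℝ := (volume (V ∩ Iio x)).toReal - 1

variable {V : Set ℝ}

lemma pack_sub (hV : volume V ≠ ⊤) {x y : ℝ} (hxy : x ≤ y) :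
    pack V y - pack V x = (volume (V ∩ Ico x y)).toReal := by
  have h1 : V ∩ Iio y = (V ∩ Iio x) ∪ (V ∩ Ico x y) := by
    rw [← inter_union_distrib_left, Iio_union_Ico_eq_Iio hxy]
  have hfin : ∀ A : Set ℝ, volume (V ∩ A) ≠ ⊤ := fun A =>
    ne_top_of_le_ne_top hV (measure_mono inter_subset_left)
  have h2 : volume (V ∩ Iio y) = volume (V ∩ Iio x) + volume (V ∩ Ico x y) := by
    rw [← measure_inter_add_sdiff (V ∩ Iio y) (measurableSet_Iio (a := x))]
    congr 1
    · congr 1
      ext z
      simp only [mem_inter_iff, mem_Iio]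
      constructor
      · rintro ⟨⟨a, b⟩, c⟩
        exact ⟨a, c⟩
      · rintro ⟨a, c⟩
        exact ⟨⟨a, c.trans_le hxy⟩, c⟩
    · congr 1
      ext z
      simp only [mem_inter_iff, Set.mem_sdiff, mem_Iio, mem_Ico, not_lt]
      tauto
  unfold pack
  rw [h2, ENNReal.toReal_add (hfin _) (hfin _)]
  ring

lemma pack_mono (hV : volume V ≠ ⊤) : Monotone (pack V) := by
  intro x y hxy
  have := pack_sub hV hxy
  have h2 : 0 ≤ (volume (V ∩ Ico x y)).toReal := ENNReal.toReal_nonneg
  linarith

lemma pack_sub_le (hV : volume V ≠ ⊤) {x y : ℝ} (hxy : x ≤ y) : pack V y - pack V x ≤ y - x := by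
  rw [pack_sub hV hxy]
  have : volume (V ∩ Ico x y) ≤ ENNReal.ofReal (y - x) := by
    rw [← Real.volume_Ico]
    exact measure_mono inter_subset_right
  have h := ENNReal.toReal_mono ENNReal.ofReal_ne_top this
  rwa [ENNReal.toReal_ofReal (by linarith)] at h

lemma pack_lip (hV : volume V ≠ ⊤) : LipschitzWith 1 (pack V) := by
  refine LipschitzWith.of_dist_le_mul fun x y => ?_
  rw [NNReal.coe_one, one_mul, Real.dist_eq, Real.dist_eq]
  rcases le_total x y with h | h
  · rw [abs_sub_comm, abs_sub_comm x y, abs_of_nonneg (sub_nonneg.2 (pack_mono hV h)),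
      abs_of_nonneg (sub_nonneg.2 h)]
    exact pack_sub_le hV h
  · rw [abs_of_nonneg (sub_nonneg.2 (pack_mono hV h)), abs_of_nonneg (sub_nonneg.2 h)]
    exact pack_sub_le hV h

/-- on a segment contained in `V` the packing map is a translation -/
lemma pack_eq (hV : volume V ≠ ⊤) {x y : ℝ} (hxy : x ≤ y) (h : Icc x y ⊆ V) :
    pack V y - pack V x = y - x := by
  rw [pack_sub hV hxy, inter_eq_self_of_subset_right (Ico_subset_Icc_self.trans h), Real.volume_Ico,
    ENNReal.toReal_ofReal (by linarith)]

lemma pack_bound (hV : volume V ≤ 2) (x : ℝ) : |pack V x| ≤ 1 := by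
  have h1 : volume (V ∩ Iio x) ≤ 2 := (measure_mono inter_subset_left).trans hV
  have h2 := ENNReal.toReal_mono (by norm_num) h1
  have h3 : 0 ≤ (volume (V ∩ Iio x)).toReal := ENNReal.toReal_nonneg
  have h4 : (2 : ℝ≥0∞).toReal = 2 := by norm_num
  rw [h4] at h2
  unfold pack
  rw [abs_le]
  constructor <;> linarith

/-- the packing map separates: near a point of the open set it is a translation -/
lemma pack_lower (hV : volume V ≠ ⊤) {x r : ℝ} (hr : 0 < r) (hx : Metric.ball x r ⊆ V) (y : ℝ) :
    min |y - x| (r / 2) ≤ |pack V y - pack V x| := by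
  have hsub : Icc (x - r / 2) (x + r / 2) ⊆ V := by
    intro z hz
    apply hx
    rw [Metric.mem_ball, Real.dist_eq, abs_lt]
    constructor <;> linarith [hz.1, hz.2]
  rcases le_total x y with h | h
  · rw [abs_of_nonneg (sub_nonneg.2 h), abs_of_nonneg (sub_nonneg.2 (pack_mono hV h))]
    rcases le_total y (x + r / 2) with h2 | h2
    · have := pack_eq hV h ((Icc_subset_Icc (by linarith) h2).trans hsub)
      rw [this]
      exact min_le_left _ _
    · have h3 := pack_eq hV (x := x) (y := x + r / 2) (by linarith)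
        ((Icc_subset_Icc (by linarith) le_rfl).trans hsub)
      have h4 := pack_mono hV h2
      exact (min_le_right _ _).trans (by linarith)
  · rw [abs_sub_comm, abs_of_nonneg (sub_nonneg.2 h), abs_sub_comm,
      abs_of_nonneg (sub_nonneg.2 (pack_mono hV h))]
    rcases le_total (x - r / 2) y with h2 | h2
    · have := pack_eq hV h ((Icc_subset_Icc h2 (by linarith)).trans hsub)
      rw [this]
      exact min_le_left _ _
    · have h3 := pack_eq hV (x := x - r / 2) (y := x) (by linarith)
        ((Icc_subset_Icc le_rfl (by linarith)).trans hsub)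
      have h4 := pack_mono hV h2
      exact (min_le_right _ _).trans (by linarith)

/-- the embedding of an open subset of the one-dimensional Euclidean space -/
theorem exists_pack_embedding (U : Set (EuclideanSpace ℝ (Fin 1))) (hU : IsOpen U)
    (hvol : volume U ≤ 2) :
    ∃ F : EuclideanSpace ℝ (Fin 1) → EuclideanSpace ℝ (Fin 1),
      IsEmbedding (U.domRestrict F) ∧ (∀ x, ‖F x‖ ≤ 1) ∧
      ∀ γ : ℝ → EuclideanSpace ℝ (Fin 1), ContinuousOn γ (Icc 0 1) → (∀ t ∈ Icc (0 : ℝ) 1, γ t ∈ U) →
        eVariationOn γ (Icc 0 1) ≤ eVariationOn (fun t => F (γ t)) (Icc 0 1) := by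
  let c : EuclideanSpace ℝ (Fin 1) → ℝ := fun x => x 0
  let e : ℝ → EuclideanSpace ℝ (Fin 1) := fun r => WithLp.toLp 2 fun _ => r
  have hce : ∀ r, c (e r) = r := fun r => rfl
  have hec : ∀ x, e (c x) = x := by
    intro x
    ext i
    rw [Subsingleton.elim i 0]
  have hdist : ∀ x y, dist x y = |c x - c y| := by
    intro x y
    rw [EuclideanSpace.dist_eq]
    simp [c, Real.dist_eq, Real.sqrt_sq_eq_abs]
  have hde : ∀ r s : ℝ, dist (e r) (e s) = |r - s| := by
    intro r s
    rw [hdist, hce, hce]
  have hisoc : Isometry c := Isometry.of_dist_eq fun x y => by rw [Real.dist_eq, hdist]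
  have hisoe : Isometry e := Isometry.of_dist_eq fun x y => by rw [Real.dist_eq, hde]
  let V : Set ℝ := e ⁻¹' U
  have hVo : IsOpen V := hU.preimage hisoe.continuous
  have hmp : MeasurePreserving e := by
    have h1 := (volume_preserving_funUnique (Fin 1) ℝ).symm
    have h2 := PiLp.volume_preserving_toLp (Fin 1)
    exact h2.comp h1
  have hvolV : volume V ≤ 2 := by
    have : volume V = volume U := hmp.measure_preimage hU.measurableSet.nullMeasurableSet
    rw [this]
    exact hvol
  have hVfin : volume V ≠ ⊤ := ne_top_of_le_ne_top (by norm_num) hvolV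
  have hmem : ∀ x ∈ U, c x ∈ V := by
    intro x hx
    show e (c x) ∈ U
    rwa [hec]
  let F : EuclideanSpace ℝ (Fin 1) → EuclideanSpace ℝ (Fin 1) := fun x => e (pack V (c x))
  have hFd : ∀ x y, dist (F x) (F y) = |pack V (c x) - pack V (c y)| := fun x y => hde _ _
  have hFcont : Continuous F := hisoe.continuous.comp ((pack_lip hVfin).continuous.comp hisoc.continuous)
  refine ⟨F, ?_, ?_, ?_⟩
  · -- embedding
    have hlow : ∀ x ∈ U, ∃ r > 0, ∀ y, min (dist y x) r ≤ dist (F y) (F x) := by
      intro x hx
      obtain ⟨r, hr, hrV⟩ := Metric.isOpen_iff.1 hVo (c x) (hmem x hx)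
      refine ⟨r / 2, by positivity, fun y => ?_⟩
      rw [hFd, hdist]
      exact pack_lower hVfin hr hrV (c y)
    have hind : IsInducing (U.domRestrict F) := by
      rw [isInducing_iff_nhds]
      intro x
      apply le_antisymm
      · exact (hFcont.comp continuous_subtype_val).continuousAt.tendsto.le_comap
      · obtain ⟨r, hr, hlow'⟩ := hlow x.1 x.2
        rw [(Metric.nhds_basis_ball.comap (U.domRestrict F)).le_basis_iff Metric.nhds_basis_ball]
        intro ε hε
        refine ⟨min ε r, lt_min hε hr, fun y hy => ?_⟩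
        have h1 : dist (F y.1) (F x.1) < min ε r := hy
        have h2 := hlow' y.1
        rw [Metric.mem_ball]
        show dist y.1 x.1 < ε
        have h3 : min (dist y.1 x.1) r < min ε r := lt_of_le_of_lt h2 h1
        by_contra hcon
        rw [not_lt] at hcon
        exact absurd h3 (not_lt.2 (min_le_min_right r hcon))
    refine ⟨hind, ?_⟩
    intro x y hxy
    obtain ⟨r, hr, hlow'⟩ := hlow x.1 x.2
    have h1 := hlow' y.1
    have h2 : dist (F y.1) (F x.1) = 0 := by
      rw [show F x.1 = F y.1 from hxy, dist_self]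
    rw [h2] at h1
    have h3 : dist y.1 x.1 ≤ 0 := by
      by_contra hcon
      rw [not_le] at hcon
      exact absurd h1 (not_le.2 (lt_min hcon hr))
    exact (Subtype.ext (dist_le_zero.1 h3)).symm
  · intro x
    have : ‖F x‖ = |pack V (c x)| := by
      have h1 := hde (pack V (c x)) 0
      have h2 : e 0 = 0 := by ext i; rfl
      rw [h2, dist_zero_right, sub_zero] at h1
      exact h1
    rw [this]
    exact pack_bound hvolV _
  · intro γ hγ hγU
    have hseg : ∀ s ∈ Icc (0 : ℝ) 1, ∀ t ∈ Icc (0 : ℝ) 1, dist (γ s) (γ t) = dist (F (γ s)) (F (γ t)) := by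
      have himg : IsPreconnected ((fun t => c (γ t)) '' Icc 0 1) :=
        isPreconnected_Icc.image _ (hisoc.continuous.comp_continuousOn hγ)
      have hord := himg.ordConnected
      have main : ∀ s ∈ Icc (0 : ℝ) 1, ∀ t ∈ Icc (0 : ℝ) 1, c (γ s) ≤ c (γ t) →
          dist (γ s) (γ t) = dist (F (γ s)) (F (γ t)) := by
        intro s hs t ht hst
        have hsub : Icc (c (γ s)) (c (γ t)) ⊆ V := by
          intro z hz
          obtain ⟨r, hr, hrz⟩ := hord.out ⟨s, hs, rfl⟩ ⟨t, ht, rfl⟩ hz
          rw [← hrz]
          exact hmem _ (hγU r hr)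
        have h1 := pack_eq hVfin hst hsub
        rw [hFd, hdist, abs_sub_comm, abs_sub_comm (pack V (c (γ s))), h1]
      intro s hs t ht
      rcases le_total (c (γ s)) (c (γ t)) with h | h
      · exact main s hs t ht h
      · rw [dist_comm, dist_comm (F (γ s))]
        exact main t ht s hs h
    apply iSup_mono
    intro p
    apply Finset.sum_le_sum
    intro i _
    rw [edist_dist, edist_dist]
    exact ENNReal.ofReal_le_ofReal (hseg _ (p.2.2.2 _) _ (p.2.2.2 _)).le

end Pool.Agent.TH594.Sponge
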